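import Mathlib

/-!
# Zeta functions and rational motivic cohomology of arithmetic schemes

Objects: regular connected schemes, projective over `ℤ` (flat or over a finite field).
-/

namespace Pool.Agent.N522.SZ

/-- The data. -/
structure Theory where
  /-- regular connected schemes, projective over `ℤ` -/
  Obj : Type
  /-- the Krull dimension -/
  dim : Obj → ℕ
  /-- the Euler product `∏ (1 - N(x)^{-s})⁻¹`, convergent for `Re s > dim X` -/
  E : Obj → ℂ → ℂ
  /-- rational motivic cohomology `H^i(X, ℚ(n))` -/
  H : Obj → ℕ → ℤ → Type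
  [grp : ∀ X n i, AddCommGroup (H X n i)]
  [mod : ∀ X n i, Module ℚ (H X n i)]
  /-- spectra of rings of integers of number fields, and smooth projective varieties of abelian type
  over finite fields (their Chow motive with rational coefficients is a direct summand of that of a
  product of curves) -/
  Base : Obj → Prop
  /-- `Cells X k S b`: `X` has a filtration by closed subschemes whose strata are affine bundles of
  rank `b j` over `S j`, `j < k`; or `X` is a Severi-Brauer scheme over `S` (with `S j = S` and
  `b j = j`, `j ≤ r`) -/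
  Cells : Obj → (k : ℕ) → (Fin k → Obj) → (Fin k → ℕ) → Prop
  /-- `B` is the blow-up of `X` along the regular closed subscheme `Z` of codimension `c + 1` -/
  Blow : (X Z B : Obj) → (c : ℕ) → Prop

attribute [instance] Theory.grp Theory.mod

/-- a graded vector space is finite-dimensional -/
def FinDim (V : ℤ → Type) [∀ i, AddCommGroup (V i)] [∀ i, Module ℚ (V i)] : Prop :=
  (∀ i, Module.Finite ℚ (V i)) ∧ {i | ¬ Subsingleton (V i)}.Finite

/-- its Euler characteristic -/
noncomputable def chi (V : ℤ → Type) [∀ i, AddCommGroup (V i)] [∀ i, Module ℚ (V i)] : ℤ :=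
  ∑ᶠ i : ℤ, (i.negOnePow : ℤ) * (Module.finrank ℚ (V i) : ℤ)

/-- **Soulé's formula at all integers `s = -m ≤ 0` (without hypotheses).** The zeta function of `X`
has a meromorphic continuation `F` to `ℂ`; the motivic cohomology of weight `n = d + m` is
finite-dimensional, and
`ord_{s = -m} F = ∑ (-1)^(i+1) dim H^{2n - i}(X, ℚ(n)) = - ∑ (-1)^k dim H^k(X, ℚ(n))`. -/
def Soule (T : Theory) (X : T.Obj) : Prop :=
  ∃ F : ℂ → ℂ, (∀ s, MeromorphicAt F s) ∧ (∀ s : ℂ, (T.dim X : ℝ) < s.re → F s = T.E X s) ∧
    ∀ m : ℕ, FinDim (T.H X (T.dim X + m)) ∧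
      meromorphicOrderAt F (-(m : ℂ)) = ((-chi (T.H X (T.dim X + m)) : ℤ) : WithTop ℤ)

/-- the cohomology of the strata, in weight `n` and degree `i`; `a j` is the codimension of the
`j`-th stratum -/
abbrev Strata (T : Theory) {k : ℕ} (S : Fin k → T.Obj) (a : Fin k → ℕ) (n : ℕ) (i : ℤ) : Type :=
  ∀ j : Fin k, T.H (S j) (n - a j) (i - 2 * (a j : ℤ))

/-- Facts on `X` with strata: the Euler product, and the motivic cohomology in weights at least the
dimension. -/
structure CellFacts (T : Theory) (X : T.Obj) (k : ℕ) (S : Fin k → T.Obj) (b : Fin k → ℕ) :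
    Prop where
  dim_le : ∀ j, T.dim (S j) + b j ≤ T.dim X
  euler : ∀ s : ℂ, (T.dim X : ℝ) < s.re → T.E X s = ∏ j, T.E (S j) (s - (b j : ℂ))
  coh : ∀ (n : ℕ) (i : ℤ), T.dim X ≤ n →
    Nonempty (T.H X n i ≃ₗ[ℚ] Strata T S (fun j => T.dim X - (T.dim (S j) + b j)) n i)

/-- Facts on the blow-up `B` of `X` along `Z` of codimension `c + 1`: with the exceptional divisor a
projective bundle of rank `c` over `Z`. -/
structure BlowFacts (T : Theory) (X Z B : T.Obj) (c : ℕ) : Prop where
  dim_B : T.dim B = T.dim X
  dim_Z : T.dim Z + (c + 1) = T.dim X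
  euler : ∀ s : ℂ, (T.dim X : ℝ) < s.re →
    T.E B s = T.E X s * ∏ j : Fin c, T.E Z (s - ((j : ℕ) + 1 : ℕ))
  coh : ∀ (n : ℕ) (i : ℤ), T.dim X ≤ n →
    Nonempty (T.H B n i ≃ₗ[ℚ] T.H X n i × Strata T (fun _ : Fin c => Z) (fun j => c - (j : ℕ)) n i)

/-- Known facts.

* `base`: for number fields Dirichlet, Hecke and Borel; for varieties over finite fields Deligne,
  Soulé, Kahn, Jannsen: rational motivic cohomology of weight `n ≥ d` of a variety of abelian type is
  zero except for `H^{2d}(X, ℚ(d)) = ℚ`, and the zeta function has a simple pole at `0` and neither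
  zeros nor poles at negative integers;
* `nonzero`: absolute convergence of the Euler product. -/
structure Facts (T : Theory) : Prop where
  base : ∀ X, T.Base X → Soule T X
  nonzero : ∀ X (s : ℂ), (T.dim X : ℝ) < s.re → T.E X s ≠ 0
  cells : ∀ X k S b, T.Cells X k S b → CellFacts T X k S b
  blow : ∀ X Z B c, T.Blow X Z B c → BlowFacts T X Z B c

/-- The smallest class containing the base objects and closed under strata, blow-ups and blow-downs
with centres in the class. -/
inductive Gen (T : Theory) : T.Obj → Prop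
  | base (X) : T.Base X → Gen T X
  | cells (X k S b) : T.Cells X k S b → (∀ j : Fin k, Gen T (S j)) → Gen T X
  | up (X Z B c) : T.Blow X Z B c → Gen T X → Gen T Z → Gen T B
  | down (X Z B c) : T.Blow X Z B c → Gen T B → Gen T Z → Gen T X

end Pool.Agent.N522.SZ
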