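import Pool.Agent.N522.SZ.Main

namespace Pool.Agent.N522.SZ

/-- `F` is a meromorphic continuation to `ℂ` of the zeta function of `X`. -/
def Cont (T : Theory) (X : T.Obj) (F : ℂ → ℂ) : Prop :=
  (∀ s, MeromorphicAt F s) ∧ ∀ s : ℂ, (T.dim X : ℝ) < s.re → F s = T.E X s

/-- Hypothesis: the zeta function of `X` has a meromorphic continuation to `ℂ`, and the rational
motivic cohomology of `X` is finite-dimensional in every weight `n ≥ d`. -/
def Hyp (T : Theory) (X : T.Obj) : Prop :=
  (∃ F, Cont T X F) ∧ ∀ m : ℕ, FinDim (T.H X (T.dim X + m))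

/-- Soulé's formula for `X` at `s = -m`. -/
def Formula (T : Theory) (X : T.Obj) (m : ℕ) : Prop :=
  ∀ F, Cont T X F →
    meromorphicOrderAt F (-(m : ℂ)) = ((-chi (T.H X (T.dim X + m)) : ℤ) : WithTop ℤ)

/-- `P X r` is `X × ℙ^r`. -/
def IsPr (T : Theory) (P : T.Obj → ℕ → T.Obj) : Prop :=
  ∀ X r, T.dim (P X r) = T.dim X + r ∧ T.Cells (P X r) (r + 1) (fun _ => X) (fun j => (j : ℕ))

/-- two continuations have the same orders -/
theorem order_unique (T : Theory) (X : T.Obj) (F G : ℂ → ℂ) (hF : Cont T X F)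
    (hG : Cont T X G) (z : ℂ) : meromorphicOrderAt F z = meromorphicOrderAt G z := by
  have hm : MeromorphicOn (F - G) Set.univ := fun s _ => (hF.1 s).sub (hG.1 s)
  have h0 : meromorphicOrderAt (F - G) ((T.dim X : ℂ) + 1) = ⊤ := by
    rw [meromorphicOrderAt_eq_top_iff]
    have hopen : {s : ℂ | (T.dim X : ℝ) < s.re} ∈ nhds ((T.dim X : ℂ) + 1) := by
      refine (isOpen_lt continuous_const Complex.continuous_re).mem_nhds ?_
      simp
    filter_upwards [mem_nhdsWithin_of_mem_nhds hopen] with s hs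
    rw [Pi.sub_apply, hF.2 s hs, hG.2 s hs, sub_self]
  have h1 : meromorphicOrderAt (F - G) z = ⊤ := by
    by_contra hne
    exact (hm.meromorphicOrderAt_ne_top_of_isPreconnected isPreconnected_univ
      (Set.mem_univ z) (Set.mem_univ ((T.dim X : ℂ) + 1)) hne) h0
  rw [meromorphicOrderAt_eq_top_iff] at h1
  refine meromorphicOrderAt_congr ?_
  filter_upwards [h1] with s hs
  rw [Pi.sub_apply, sub_eq_zero] at hs
  exact hs

/-- The continuation, the order at `0` and the Euler characteristic for `X × ℙ^r`. -/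
theorem pr_facts (T : Theory) (hT : Facts T) (P : T.Obj → ℕ → T.Obj) (hP : IsPr T P)
    (X : T.Obj) (hfin : ∀ m : ℕ, FinDim (T.H X (T.dim X + m))) (F : ℂ → ℂ) (hF : Cont T X F)
    (r : ℕ) : ∃ G, Cont T (P X r) G ∧
      meromorphicOrderAt G (-((0 : ℕ) : ℂ)) =
        ∑ j ∈ Finset.range (r + 1), meromorphicOrderAt F (-(j : ℂ)) ∧
      chi (T.H (P X r) (T.dim (P X r) + 0)) =
        ∑ j ∈ Finset.range (r + 1), chi (T.H X (T.dim X + j)) := by
  obtain ⟨hd, hc⟩ := hP X r
  have hf := hT.cells _ _ _ _ hc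
  have hmer : ∀ (j : Fin (r + 1)) (s : ℂ), MeromorphicAt (F ∘ (· - ((j : ℕ) : ℂ))) s :=
    fun j s => meromorphicAt_comp_sub_const_iff_meromorphicAt.mpr (hF.1 _)
  refine ⟨∏ j : Fin (r + 1), F ∘ (· - ((j : ℕ) : ℂ)), ⟨fun s => ?_, fun s hs => ?_⟩, ?_, ?_⟩
  · exact MeromorphicAt.prod fun j _ => hmer j s
  · rw [hf.euler s hs, Finset.prod_apply]
    refine Finset.prod_congr rfl fun j _ => hF.2 _ ?_
    rw [hd] at hs
    push_cast at hs
    rw [Complex.sub_re, Complex.natCast_re]
    have : ((j : ℕ) : ℝ) ≤ r := by exact_mod_cast Nat.lt_succ_iff.mp j.2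
    linarith
  · rw [meromorphicOrderAt_prod fun j _ => hmer j _, Finset.sum_range]
    refine Finset.sum_congr rfl fun j _ => ?_
    rw [meromorphicOrderAt_comp_sub_const_eq_meromorphicOrderAt]
    congr 1
    push_cast
    ring
  · rw [chi_of_equiv fun i => hf.coh (T.dim (P X r) + 0) i (Nat.le_add_right _ _)]
    have hw : ∀ j : Fin (r + 1), T.dim (P X r) + 0 - (T.dim (P X r) - (T.dim X + (j : ℕ))) =
        T.dim X + (j : ℕ) := by
      intro j
      have := j.2
      omega
    have hfin' : ∀ j : Fin (r + 1), FinDim fun i => T.H X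
        (T.dim (P X r) + 0 - (T.dim (P X r) - (T.dim X + (j : ℕ))))
        (i - 2 * ((T.dim (P X r) - (T.dim X + (j : ℕ)) : ℕ) : ℤ)) := by
      intro j
      exact (fin_cast T X (hw j).symm (hfin j)).shift _
    have h4 : chi (Strata T (fun _ : Fin (r + 1) => X)
        (fun j => T.dim (P X r) - (T.dim X + (j : ℕ))) (T.dim (P X r) + 0)) =
        ∑ j : Fin (r + 1), chi (fun i => T.H X
          (T.dim (P X r) + 0 - (T.dim (P X r) - (T.dim X + (j : ℕ))))
          (i - 2 * ((T.dim (P X r) - (T.dim X + (j : ℕ)) : ℕ) : ℤ))) := chi_pi hfin'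
    rw [h4, Finset.sum_range]
    refine Finset.sum_congr rfl fun j _ => ?_
    rw [chi_shift (V := T.H X (T.dim (P X r) + 0 - (T.dim (P X r) - (T.dim X + (j : ℕ)))))
      ((T.dim (P X r) - (T.dim X + (j : ℕ)) : ℕ) : ℤ), hw j]

/-- Q1 for the products `X × ℙ^r` is Soulé's formula for `X` at the integers `s ≤ 0`. -/
theorem formula_iff (T : Theory) (hT : Facts T) (P : T.Obj → ℕ → T.Obj) (hP : IsPr T P)
    (X : T.Obj) (hX : Hyp T X) :
    (∀ r, Formula T (P X r) 0) ↔ ∀ m, Formula T X m := by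
  constructor
  · intro h m
    induction m using Nat.strong_induction_on with
    | _ m ih =>
      intro F hF
      obtain ⟨G, hG, ho, hc⟩ := pr_facts T hT P hP X hX.2 F hF m
      have h1 := h m G hG
      rw [ho, hc, Finset.sum_range_succ, Finset.sum_range_succ,
        Finset.sum_congr rfl fun j hj => ih j (Finset.mem_range.mp hj) F hF,
        ← WithTop.coe_sum, Finset.sum_neg_distrib, neg_add, WithTop.coe_add] at h1
      exact WithTop.add_left_cancel WithTop.coe_ne_top h1
  · intro h r G hG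
    obtain ⟨F, hF⟩ := hX.1
    obtain ⟨G', hG', ho, hc⟩ := pr_facts T hT P hP X hX.2 F hF r
    rw [order_unique T (P X r) G G' hG hG', ho, hc,
      Finset.sum_congr rfl fun j _ => h j F hF, ← WithTop.coe_sum, Finset.sum_neg_distrib]

end Pool.Agent.N522.SZ
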