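import Pool.Agent.N522.SZ.Defs

namespace Pool.Agent.N522.SZ

open Function

section
variable {V W : ℤ → Type} [∀ i, AddCommGroup (V i)] [∀ i, Module ℚ (V i)]
  [∀ i, AddCommGroup (W i)] [∀ i, Module ℚ (W i)]

theorem FinDim.support (h : FinDim V) :
    (support fun i : ℤ => (i.negOnePow : ℤ) * (Module.finrank ℚ (V i) : ℤ)).Finite := by
  refine h.2.subset ?_
  intro i hi hs
  apply hi
  change (i.negOnePow : ℤ) * (Module.finrank ℚ (V i) : ℤ) = 0
  rw [Module.finrank_zero_of_subsingleton]
  simp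

theorem FinDim.of_equiv (h : FinDim V) (e : ∀ i, Nonempty (V i ≃ₗ[ℚ] W i)) : FinDim W := by
  refine ⟨fun i => ?_, h.2.subset ?_⟩
  · obtain ⟨f⟩ := e i
    have := h.1 i
    exact Module.Finite.equiv f
  · intro i hi hs
    apply hi
    obtain ⟨f⟩ := e i
    exact f.symm.toEquiv.subsingleton

theorem chi_of_equiv (e : ∀ i, Nonempty (V i ≃ₗ[ℚ] W i)) : chi V = chi W := by
  unfold chi
  refine finsum_congr fun i => ?_
  obtain ⟨f⟩ := e i
  rw [f.finrank_eq]

theorem FinDim.prod (h1 : FinDim V) (h2 : FinDim W) : FinDim fun i => V i × W i := by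
  refine ⟨fun i => ?_, (h1.2.union h2.2).subset ?_⟩
  · have := h1.1 i
    have := h2.1 i
    infer_instance
  · intro i hi
    by_contra hno
    simp only [Set.mem_union, Set.mem_ofPred_eq, not_or, not_not] at hno
    obtain ⟨a, b⟩ := hno
    exact hi inferInstance

theorem FinDim.fst (h : FinDim fun i => V i × W i) : FinDim V := by
  refine ⟨fun i => ?_, h.2.subset ?_⟩
  · have := h.1 i
    exact Module.Finite.of_surjective (LinearMap.fst ℚ (V i) (W i)) LinearMap.fst_surjective
  · intro i hi hs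
    apply hi
    refine ⟨fun a b => ?_⟩
    have := hs.elim (a, (0 : W i)) (b, 0)
    exact congrArg Prod.fst this

theorem chi_prod (h1 : FinDim V) (h2 : FinDim W) :
    chi (fun i => V i × W i) = chi V + chi W := by
  unfold chi
  rw [← finsum_add_distrib h1.support h2.support]
  refine finsum_congr fun i => ?_
  have := h1.1 i
  have := h2.1 i
  rw [Module.finrank_prod]
  push_cast
  ring

theorem FinDim.shift (h : FinDim V) (a : ℤ) : FinDim fun i => V (i - a) := by
  refine ⟨fun i => h.1 (i - a), ?_⟩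
  have : {i : ℤ | ¬ Subsingleton (V (i - a))} = (fun i => i - a) ⁻¹' {i | ¬ Subsingleton (V i)} :=
    rfl
  rw [this]
  exact h.2.preimage (sub_left_injective.injOn)

theorem chi_shift (a : ℤ) : chi (fun i => V (i - 2 * a)) = chi V := by
  unfold chi
  conv_rhs => rw [← finsum_comp_equiv (Equiv.subRight (2 * a))]
  refine finsum_congr fun i => ?_
  have h1 : ((Equiv.subRight (2 * a)) i).negOnePow = i.negOnePow := by
    change (i - 2 * a).negOnePow = _
    rw [Int.negOnePow_sub, Int.negOnePow_even (2 * a) (even_two_mul a), mul_one]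
  rw [h1]
  rfl

end

section
variable {k : ℕ} {V : Fin k → ℤ → Type} [∀ j i, AddCommGroup (V j i)]
  [∀ j i, Module ℚ (V j i)]

theorem FinDim.pi (h : ∀ j, FinDim (V j)) : FinDim fun i => ∀ j, V j i := by
  refine ⟨fun i => ?_, (Set.finite_iUnion fun j => (h j).2).subset ?_⟩
  · have := fun j => (h j).1 i
    infer_instance
  · intro i hi
    by_contra hno
    simp only [Set.mem_iUnion, Set.mem_ofPred_eq, not_exists, not_not] at hno
    exact hi inferInstance

theorem chi_pi (h : ∀ j, FinDim (V j)) : chi (fun i => ∀ j, V j i) = ∑ j, chi (V j) := by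
  unfold chi
  rw [← finsum_sum_comm Finset.univ _ fun j _ => (h j).support]
  refine finsum_congr fun i => ?_
  have := fun j => (h j).1 i
  rw [Module.finrank_pi_fintype]
  push_cast
  rw [Finset.mul_sum]

end

/-! ### Families -/

theorem fin_cast (T : Theory) (X : T.Obj) {n n' : ℕ} (h : n = n') (hf : FinDim (T.H X n)) :
    FinDim (T.H X n') := by
  subst h; exact hf

/-- the zeta function and the cohomology of a family of strata -/
theorem family (T : Theory) (hT : Facts T) (D k : ℕ) (S : Fin k → T.Obj) (a b : Fin k → ℕ)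
    (hD : ∀ j, T.dim (S j) + b j + a j = D) (h : ∀ j, Soule T (S j)) :
    ∃ F : ℂ → ℂ, (∀ s, MeromorphicAt F s) ∧
      (∀ s : ℂ, (D : ℝ) < s.re → F s = ∏ j, T.E (S j) (s - (b j : ℂ)) ∧ F s ≠ 0) ∧
      ∀ m : ℕ, FinDim (Strata T S a (D + m)) ∧
        meromorphicOrderAt F (-(m : ℂ)) = ((-chi (Strata T S a (D + m)) : ℤ) : WithTop ℤ) := by
  choose F hm he ho using h
  have hre : ∀ (j : Fin k) (s : ℂ), (D : ℝ) < s.re → (T.dim (S j) : ℝ) < (s - (b j : ℂ)).re := by
    intro j s hs
    have h1 : (D : ℝ) = T.dim (S j) + b j + a j := by exact_mod_cast (hD j).symm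
    rw [h1] at hs
    rw [Complex.sub_re, Complex.natCast_re]
    have : (0 : ℝ) ≤ a j := Nat.cast_nonneg _
    linarith
  have hmer : ∀ (j : Fin k) (s : ℂ), MeromorphicAt (F j ∘ (· - (b j : ℂ))) s := fun j s =>
    meromorphicAt_comp_sub_const_iff_meromorphicAt.mpr (hm j _)
  refine ⟨∏ j, F j ∘ (· - (b j : ℂ)), fun s => ?_, fun s hs => ?_, fun m => ?_⟩
  · exact MeromorphicAt.prod fun j _ => hmer j s
  · have h1 : (∏ j, F j ∘ (· - (b j : ℂ))) s = ∏ j, T.E (S j) (s - (b j : ℂ)) := by
      rw [Finset.prod_apply]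
      exact Finset.prod_congr rfl fun j _ => he j _ (hre j s hs)
    refine ⟨h1, ?_⟩
    rw [h1]
    exact Finset.prod_ne_zero_iff.mpr fun j _ => hT.nonzero _ _ (hre j s hs)
  · have hw : ∀ j, D + m - a j = T.dim (S j) + (b j + m) := by
      intro j
      have := hD j
      omega
    have hfin : ∀ j, FinDim fun i => T.H (S j) (D + m - a j) (i - 2 * (a j : ℤ)) := by
      intro j
      exact (fin_cast T (S j) (hw j).symm (ho j (b j + m)).1).shift _
    refine ⟨FinDim.pi hfin, ?_⟩
    rw [meromorphicOrderAt_prod fun j _ => hmer j _]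
    have h2 : ∀ j, meromorphicOrderAt (F j ∘ (· - (b j : ℂ))) (-(m : ℂ)) =
        ((-chi (fun i => T.H (S j) (D + m - a j) (i - 2 * (a j : ℤ))) : ℤ) : WithTop ℤ) := by
      intro j
      rw [meromorphicOrderAt_comp_sub_const_eq_meromorphicOrderAt]
      have h3 : -(m : ℂ) - (b j : ℂ) = -((b j + m : ℕ) : ℂ) := by push_cast; ring
      rw [h3, (ho j (b j + m)).2, chi_shift (V := T.H (S j) (D + m - a j)) (a j : ℤ), hw j]
    rw [Finset.sum_congr rfl fun j _ => h2 j]
    have h4 : chi (Strata T S a (D + m)) =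
        ∑ j, chi (fun i => T.H (S j) (D + m - a j) (i - 2 * (a j : ℤ))) := chi_pi hfin
    rw [h4, ← WithTop.coe_sum, Finset.sum_neg_distrib]

end Pool.Agent.N522.SZ
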