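import Pool.Agent.N522.SZ.Graded

namespace Pool.Agent.N522.SZ

theorem soule_cells (T : Theory) (hT : Facts T) (X : T.Obj) (k : ℕ) (S : Fin k → T.Obj)
    (b : Fin k → ℕ) (hc : T.Cells X k S b) (h : ∀ j, Soule T (S j)) : Soule T X := by
  have hf := hT.cells X k S b hc
  obtain ⟨F, hm, he, ho⟩ := family T hT (T.dim X) k S
    (fun j => T.dim X - (T.dim (S j) + b j)) b (fun j => by have := hf.dim_le j; omega) h
  refine ⟨F, hm, fun s hs => ?_, fun m => ?_⟩
  · rw [(he s hs).1, hf.euler s hs]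
  · have e : ∀ i, Nonempty (T.H X (T.dim X + m) i ≃ₗ[ℚ]
        Strata T S (fun j => T.dim X - (T.dim (S j) + b j)) (T.dim X + m) i) :=
      fun i => hf.coh _ i (Nat.le_add_right _ _)
    refine ⟨(ho m).1.of_equiv fun i => ?_, ?_⟩
    · obtain ⟨f⟩ := e i
      exact ⟨f.symm⟩
    · rw [(ho m).2, chi_of_equiv e]

theorem blow_family (T : Theory) (hT : Facts T) (X Z B : T.Obj) (c : ℕ)
    (hf : BlowFacts T X Z B c) (h : Soule T Z) :
    ∃ F : ℂ → ℂ, (∀ s, MeromorphicAt F s) ∧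
      (∀ s : ℂ, (T.dim X : ℝ) < s.re →
        F s = ∏ j : Fin c, T.E Z (s - (((j : ℕ) + 1 : ℕ) : ℂ)) ∧ F s ≠ 0) ∧
      ∀ m : ℕ, FinDim (Strata T (fun _ : Fin c => Z) (fun j => c - (j : ℕ)) (T.dim X + m)) ∧
        meromorphicOrderAt F (-(m : ℂ)) = ((-chi (Strata T (fun _ : Fin c => Z)
          (fun j => c - (j : ℕ)) (T.dim X + m)) : ℤ) : WithTop ℤ) :=
  family T hT (T.dim X) c (fun _ => Z) (fun j => c - (j : ℕ)) (fun j => (j : ℕ) + 1)
    (fun j => by have := hf.dim_Z; have := j.2; omega) (fun _ => h)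

theorem soule_up (T : Theory) (hT : Facts T) (X Z B : T.Obj) (c : ℕ) (hb : T.Blow X Z B c)
    (hX : Soule T X) (hZ : Soule T Z) : Soule T B := by
  have hf := hT.blow X Z B c hb
  obtain ⟨G, gm, ge, go⟩ := blow_family T hT X Z B c hf hZ
  obtain ⟨F, hm, he, ho⟩ := hX
  refine ⟨F * G, fun s => (hm s).mul (gm s), fun s hs => ?_, fun m => ?_⟩
  · rw [hf.dim_B] at hs
    rw [Pi.mul_apply, he s hs, (ge s hs).1, hf.euler s hs]
  · rw [hf.dim_B]
    have e : ∀ i, Nonempty (T.H B (T.dim X + m) i ≃ₗ[ℚ] T.H X (T.dim X + m) i ×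
        Strata T (fun _ : Fin c => Z) (fun j => c - (j : ℕ)) (T.dim X + m) i) :=
      fun i => hf.coh _ i (Nat.le_add_right _ _)
    have hp := (ho m).1.prod (go m).1
    refine ⟨hp.of_equiv fun i => ?_, ?_⟩
    · obtain ⟨f⟩ := e i
      exact ⟨f.symm⟩
    · rw [meromorphicOrderAt_mul (hm _) (gm _), (ho m).2, (go m).2, chi_of_equiv e,
        chi_prod (ho m).1 (go m).1, ← WithTop.coe_add]
      congr 1
      ring

theorem soule_down (T : Theory) (hT : Facts T) (X Z B : T.Obj) (c : ℕ) (hb : T.Blow X Z B c)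
    (hB : Soule T B) (hZ : Soule T Z) : Soule T X := by
  have hf := hT.blow X Z B c hb
  obtain ⟨G, gm, ge, go⟩ := blow_family T hT X Z B c hf hZ
  obtain ⟨F, hm, he, ho⟩ := hB
  rw [hf.dim_B] at he ho
  refine ⟨F * G⁻¹, fun s => (hm s).mul (gm s).inv, fun s hs => ?_, fun m => ?_⟩
  · rw [Pi.mul_apply, Pi.inv_apply, he s hs, hf.euler s hs]
    have h1 := (ge s hs).2
    rw [← (ge s hs).1, mul_assoc, mul_inv_cancel₀ h1, mul_one]
  · have e : ∀ i, Nonempty (T.H B (T.dim X + m) i ≃ₗ[ℚ] T.H X (T.dim X + m) i ×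
        Strata T (fun _ : Fin c => Z) (fun j => c - (j : ℕ)) (T.dim X + m) i) :=
      fun i => hf.coh _ i (Nat.le_add_right _ _)
    have hp := (ho m).1.of_equiv e
    have hX := hp.fst
    refine ⟨hX, ?_⟩
    rw [meromorphicOrderAt_mul (hm _) (gm _).inv, meromorphicOrderAt_inv, (ho m).2, (go m).2,
      chi_of_equiv e, chi_prod hX (go m).1, ← WithTop.LinearOrderedAddCommGroup.coe_neg,
      ← WithTop.coe_add]
    congr 1
    ring

/-- Soulé's formula holds for all objects of the class. -/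
theorem main (T : Theory) (hT : Facts T) (X : T.Obj) (h : Gen T X) : Soule T X := by
  induction h with
  | base X h => exact hT.base X h
  | cells X k S b h _ ih => exact soule_cells T hT X k S b h ih
  | up X Z B c h _ _ h1 h2 => exact soule_up T hT X Z B c h h1 h2
  | down X Z B c h _ _ h1 h2 => exact soule_down T hT X Z B c h h1 h2

end Pool.Agent.N522.SZ
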